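import Pool.Agent.H51.EI.TargetsC

set_option autoImplicit false

namespace Pool.Agent.H49.EI.KKK

open Pool.Agent.H51.EI

theorem pf_KKK : T_KKK := by
  intro K hK
  have hfin : FiniteDimensional ℚ K := by
    rcases hK with h | h
    · exact Module.finite_of_finrank_pos (by omega)
    · exact Module.finite_of_finrank_pos (by omega)
  apply le_antisymm
  · unfold KK
    rw [Subfield.closure_le]
    intro x hx
    exact hx.1
  · intro x hx
    have halg : IsAlgebraic ℚ (⟨x, hx⟩ : K) := Algebra.IsAlgebraic.isAlgebraic _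
    have halg2 : IsAlgebraic ℚ x := IsAlgebraic.algHom (K.subtype.toRatAlgHom) halg
    have halg3 : IsAlgebraic ℤ x := (IsFractionRing.isAlgebraic_iff ℤ ℚ ℂ).2 halg2
    obtain ⟨y, hy0, hy⟩ := halg3.exists_integral_multiple
    have hy0' : ((y : ℤ) : ℂ) ≠ 0 := by exact_mod_cast hy0
    have h1 : ((y : ℤ) : ℂ) * x ∈ OI K := by
      refine ⟨K.mul_mem (intCast_mem K y) hx, ?_⟩
      have : (y : ℤ) • x = ((y : ℤ) : ℂ) * x := by simp
      rw [← this]; exact hy
    have h2 : ((y : ℤ) : ℂ) ∈ OI K := by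
      refine ⟨intCast_mem K y, ?_⟩
      have := isIntegral_algebraMap (R := ℤ) (A := ℂ) (x := y)
      simpa using this
    have h3 : x = (((y : ℤ) : ℂ) * x) / ((y : ℤ) : ℂ) := by
      field_simp
    rw [h3]
    unfold KK
    exact Subfield.div_mem _ (Subfield.subset_closure h1) (Subfield.subset_closure h2)

end Pool.Agent.H49.EI.KKK
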